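import Pool.Agent.H176R3.CancelDefs

/-!
The circle, two reflections, and integer valued functions.
-/

set_option autoImplicit false

open MeasureTheory

namespace Pool.Agent.H176R3.Cancel

/-- The circle `ℝ / ℤ`. -/
abbrev T := AddCircle (1 : ℝ)

/-- The group generated by the two reflections `x ↦ -x` and `x ↦ a - x` of the circle. -/
def GR (a : T) : Subgroup (Equiv.Perm T) := Subgroup.closure {Equiv.neg T, Equiv.subLeft a}

lemma GR_measurable {a : T} {g : Equiv.Perm T} (hg : g ∈ GR a) :
    Measurable g ∧ Measurable (g⁻¹ : Equiv.Perm T) := by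
  unfold GR at hg
  induction hg using Subgroup.closure_induction with
  | mem x hx =>
    rcases hx with rfl | hx
    · have h1 : ((Equiv.neg T)⁻¹ : Equiv.Perm T) = Equiv.neg T := by
        ext x; exact congrArg _ (by simp)
      rw [h1]
      have h2 : Measurable (Equiv.neg T) := measurable_neg
      exact ⟨h2, h2⟩
    · rw [Set.mem_singleton_iff] at hx
      subst hx
      have h1 : ((Equiv.subLeft a)⁻¹ : Equiv.Perm T) = Equiv.subLeft a := by
        rw [inv_eq_iff_mul_eq_one]
        ext x
        simp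
      rw [h1]
      have h2 : Measurable (Equiv.subLeft a) := measurable_const.sub measurable_id
      exact ⟨h2, h2⟩
  | one => exact ⟨measurable_id, by rw [inv_one]; exact measurable_id⟩
  | mul x y _ _ hx hy =>
    refine ⟨?_, ?_⟩
    · rw [Equiv.Perm.coe_mul]; exact hx.1.comp hy.1
    · rw [mul_inv_rev, Equiv.Perm.coe_mul]; exact hy.2.comp hx.2
  | inv x _ hx => exact ⟨hx.2, by rw [inv_inv]; exact hx.1⟩

/-- The integer valued functions which are sums of two coboundaries. -/
def Cob (a : T) (F : T → ℤ) : Prop :=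
  ∃ f h : T → ℤ, Measurable f ∧ Measurable h ∧ ∀ x, F x = (f x - f (-x)) + (h x - h (a - x))

lemma Cob.add {a : T} {F F' : T → ℤ} (hF : Cob a F) (hF' : Cob a F') :
    Cob a (fun x => F x + F' x) := by
  obtain ⟨f, h, hf, hh, hFf⟩ := hF
  obtain ⟨f', h', hf', hh', hFf'⟩ := hF'
  exact ⟨fun x => f x + f' x, fun x => h x + h' x, hf.add hf', hh.add hh', fun x => by
    beta_reduce; rw [hFf, hFf']; ring⟩

lemma Cob.neg {a : T} {F : T → ℤ} (hF : Cob a F) : Cob a (fun x => - F x) := by
  obtain ⟨f, h, hf, hh, hFf⟩ := hF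
  exact ⟨fun x => - f x, fun x => - h x, hf.neg, hh.neg, fun x => by
    beta_reduce; rw [hFf]; ring⟩

lemma Cob.zero (a : T) : Cob a (fun _ => 0) :=
  ⟨fun _ => 0, fun _ => 0, measurable_const, measurable_const, fun x => by simp⟩

lemma Cob.sum {a : T} {ι : Type} (s : Finset ι) (F : ι → T → ℤ) (hF : ∀ i ∈ s, Cob a (F i)) :
    Cob a (fun x => ∑ i ∈ s, F i x) := by
  classical
  induction s using Finset.induction_on with
  | empty => simpa using Cob.zero a
  | insert i s hi ih =>
    simp only [Finset.sum_insert hi]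
    exact (hF i (Finset.mem_insert_self _ _)).add
      (ih fun j hj => hF j (Finset.mem_insert_of_mem hj))

lemma cob_of_mem {a : T} {g : Equiv.Perm T} (hg : g ∈ GR a) :
    ∀ f : T → ℤ, Measurable f → Cob a (fun x => f x - f ((g⁻¹ : Equiv.Perm T) x)) := by
  have hg' := hg
  unfold GR at hg
  induction hg using Subgroup.closure_induction with
  | mem x hx =>
    intro f hf
    rcases hx with rfl | hx
    · refine ⟨f, fun _ => 0, hf, measurable_const, fun y => ?_⟩
      have h1 : ((Equiv.neg T)⁻¹ : Equiv.Perm T) y = -y := rfl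
      beta_reduce
      rw [h1]; simp
    · rw [Set.mem_singleton_iff] at hx
      subst hx
      refine ⟨fun _ => 0, f, measurable_const, hf, fun y => ?_⟩
      have h1 : ((Equiv.subLeft a)⁻¹ : Equiv.Perm T) y = a - y := by
        rw [Equiv.Perm.inv_eq_iff_eq]
        simp
      beta_reduce
      rw [h1]; simp
  | one =>
    intro f _
    simpa using Cob.zero a
  | mul x y hx hy ihx ihy =>
    intro f hf
    have h1 := ihx hx (fun z => f ((y⁻¹ : Equiv.Perm T) z)) (hf.comp (GR_measurable hy).2)
    have h2 := ihy hy f hf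
    have h3 := h1.add h2
    have h4 : (fun z => f z - f (((x * y)⁻¹ : Equiv.Perm T) z)) = fun z =>
        (f ((y⁻¹ : Equiv.Perm T) z) - f ((y⁻¹ : Equiv.Perm T) ((x⁻¹ : Equiv.Perm T) z))) +
        (f z - f ((y⁻¹ : Equiv.Perm T) z)) := by
      funext z
      rw [mul_inv_rev, Equiv.Perm.mul_apply]
      ring
    rw [h4]
    exact h3
  | inv x hx ih =>
    intro f hf
    have h1 := (ih hx (fun z => f (x z)) (hf.comp (GR_measurable hx).1)).neg
    have h4 : (fun z => f z - f (((x⁻¹)⁻¹ : Equiv.Perm T) z)) = fun z =>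
        -(f (x z) - f (x ((x⁻¹ : Equiv.Perm T) z))) := by
      funext z
      have h5 : x ((x⁻¹ : Equiv.Perm T) z) = z := x.apply_symm_apply z
      rw [inv_inv, h5]
      ring
    rw [h4]
    exact h1

/-- The exceptional set: the points fixed by some reflection in the group. -/
def Dex (a : T) : Set T := {x | ∃ n : ℤ, x + x = n • a}

lemma Dex_countable (θ : ℝ) : (Dex (θ : T)).Countable := by
  have h : Dex (θ : T) ⊆ Set.range (fun p : ℤ × ℤ => (((p.1 * θ + p.2) / 2 : ℝ) : T)) := by
    rintro x ⟨n, hn⟩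
    obtain ⟨r, rfl⟩ := QuotientAddGroup.mk_surjective x
    have h1 : ((r + r - n * θ : ℝ) : T) = 0 := by
      have h2 : ((r + r - n * θ : ℝ) : T) = (r : T) + (r : T) - n • (θ : T) := by
        push_cast
        rw [← zsmul_eq_mul]
        rfl
      rw [h2, sub_eq_zero]
      exact hn
    obtain ⟨k, hk⟩ := (AddCircle.coe_eq_zero_iff 1).mp h1
    refine ⟨(n, k), ?_⟩
    beta_reduce
    congr 1
    rw [zsmul_eq_mul, mul_one] at hk
    linarith
  exact (Set.countable_range _).mono h

instance : NullSingletonClass (volume : Measure T) :=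
  ⟨fun x => by rw [← Metric.closedBall_zero, AddCircle.volume_closedBall]; simp⟩

lemma neg_mem_Dex {a x : T} (hx : x ∈ Dex a) : -x ∈ Dex a := by
  obtain ⟨n, hn⟩ := hx
  refine ⟨-n, ?_⟩
  rw [neg_smul, ← hn]
  abel

lemma sub_mem_Dex {a x : T} (hx : x ∈ Dex a) : a - x ∈ Dex a := by
  obtain ⟨n, hn⟩ := hx
  refine ⟨2 - n, ?_⟩
  rw [sub_smul, ← hn, two_smul]
  abel

/-- There is no measurable solution of the two reflection equations. -/
lemma no_solution {θ : ℝ} (hθ : Irrational θ) (m : T → ℤ) (hm : Measurable m)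
    (h1 : ∀ x, x ∉ Dex (θ : T) → m x + m (-x) = 1)
    (h1' : ∀ x, x ∈ Dex (θ : T) → m x + m (-x) = 0)
    (h2 : ∀ x, x ∉ Dex (θ : T) → m x + m ((θ : T) - x) = 1)
    (h2' : ∀ x, x ∈ Dex (θ : T) → m x + m ((θ : T) - x) = 0) : False := by
  have hdense : DenseRange (· • (θ : T) : ℤ → T) := by
    rw [AddCircle.denseRange_zsmul_coe_iff, div_one]
    exact hθ
  have herg : Ergodic ((θ : T) + ·) (volume : Measure T) :=
    ergodic_add_left_of_denseRange_zsmul hdense volume
  have hinv : ∀ x, m ((θ : T) + x) = m x := by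
    intro x
    by_cases hx : x ∈ Dex (θ : T)
    · have e1 := h1' x hx
      have e2 := h2' (-x) (neg_mem_Dex hx)
      rw [sub_neg_eq_add] at e2
      omega
    · have hx' : -x ∉ Dex (θ : T) := fun h => hx (by simpa using neg_mem_Dex h)
      have e1 := h1 x hx
      have e2 := h2 (-x) hx'
      rw [sub_neg_eq_add] at e2
      omega
  obtain ⟨k, hk⟩ := herg.ae_eq_const_of_ae_eq_comp₀ hm.nullMeasurable
    (Filter.Eventually.of_forall fun x => hinv x)
  have hk' : ∀ᵐ x : T, m (-x) = k := by
    have := (Measure.measurePreserving_neg (volume : Measure T)).quasiMeasurePreserving.ae hk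
    exact this
  have hD : ∀ᵐ x : T, x ∉ Dex (θ : T) := (Dex_countable θ).ae_notMem volume
  have hall : ∀ᵐ x : T, False := by
    filter_upwards [hk, hk', hD] with x hx hx' hxD
    have e1 := h1 x hxD
    have hx2 : m x = k := hx
    omega
  have h3 : (volume : Measure T) Set.univ = 0 := by
    have := ae_iff.mp hall
    simp only [not_false_eq_true] at this
    exact this
  rw [AddCircle.measure_univ] at h3
  simp at h3

end Pool.Agent.H176R3.Cancel
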