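import Mathlib

/-!
Equidecomposability with pieces in an invariant algebra of sets, types and the cancellation law.
-/

set_option autoImplicit false

open scoped Pointwise

namespace Pool.Agent.H176R3.Cancel

/-- A `G`-invariant subalgebra of the algebra of all subsets of `X`. -/
structure InvAlg (G X : Type) [Group G] [MulAction G X] where
  /-- the members of the subalgebra -/
  sets : Set (Set X)
  empty_mem : ∅ ∈ sets
  univ_mem : Set.univ ∈ sets
  union_mem : ∀ A ∈ sets, ∀ B ∈ sets, A ∪ B ∈ sets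
  inter_mem : ∀ A ∈ sets, ∀ B ∈ sets, A ∩ B ∈ sets
  compl_mem : ∀ A ∈ sets, Aᶜ ∈ sets
  smul_mem : ∀ g : G, ∀ A ∈ sets, (fun x => g • x) '' A ∈ sets

variable {G X : Type} [Group G] [MulAction G X]

/-- The subalgebra is proper when it does not contain all subsets. -/
def InvAlg.Proper (𝒜 : InvAlg G X) : Prop := 𝒜.sets ≠ Set.univ

/-- The family `𝒜^*` of the sets `⋃_{m < n} A_m × {m}` with all `A_m` in `𝒜`. -/
def InvAlg.star (𝒜 : InvAlg G X) : Set (Set (X × ℕ)) :=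
  {C | ∃ (n : ℕ) (A : ℕ → Set X), (∀ m, A m ∈ 𝒜.sets) ∧ C = {p | p.2 < n ∧ p.1 ∈ A p.2}}

/-- The action of the pair `(g, π)` in `G^*` on `X × ℕ`. -/
def starMap (h : G × Equiv.Perm ℕ) (p : X × ℕ) : X × ℕ := (h.1 • p.1, h.2 p.2)

/-- The sets `P i` form a partition of `A` (empty pieces are allowed). -/
def IsPartition {ι Y : Type} (P : ι → Set Y) (A : Set Y) : Prop :=
  (∀ i, P i ⊆ A) ∧ ∀ p ∈ A, ∃! i, p ∈ P i

/-- Equidecomposability in `𝒜`. -/
def InvAlg.Equi (𝒜 : InvAlg G X) (A B : Set (X × ℕ)) : Prop :=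
  ∃ (k : ℕ) (P : Fin k → Set (X × ℕ)) (h : Fin k → G × Equiv.Perm ℕ), (∀ i, P i ∈ 𝒜.star) ∧
    IsPartition P A ∧ IsPartition (fun i => starMap (h i) '' P i) B

/-- Equidecomposability with pieces contained in single levels. -/
def Equi1 (𝒜 : InvAlg G X) (A B : Set (X × ℕ)) : Prop :=
  ∃ (ι : Type) (_ : Fintype ι) (S : ι → Set X) (g : ι → G) (m n : ι → ℕ),
    (∀ i, S i ∈ 𝒜.sets) ∧ IsPartition (fun i => {p : X × ℕ | p.1 ∈ S i ∧ p.2 = m i}) A ∧
    IsPartition (fun i => {p : X × ℕ | (g i)⁻¹ • p.1 ∈ S i ∧ p.2 = n i}) B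

lemma single_mem (𝒜 : InvAlg G X) {S : Set X} (hS : S ∈ 𝒜.sets) (m : ℕ) :
    {p : X × ℕ | p.1 ∈ S ∧ p.2 = m} ∈ 𝒜.star := by
  refine ⟨m + 1, fun j => if j = m then S else ∅, ?_, ?_⟩
  · intro j
    beta_reduce
    split_ifs
    · exact hS
    · exact 𝒜.empty_mem
  · ext p
    simp only [Set.mem_ofPred_eq]
    constructor
    · rintro ⟨h1, h2⟩
      rw [h2, if_pos rfl]
      exact ⟨Nat.lt_succ_self m, h1⟩
    · rintro ⟨h1, h2⟩
      by_cases h : p.2 = m
      · rw [if_pos h] at h2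
        exact ⟨h2, h⟩
      · rw [if_neg h] at h2
        exact absurd h2 (Set.notMem_empty _)

lemma equi_iff (𝒜 : InvAlg G X) (A B : Set (X × ℕ)) : 𝒜.Equi A B ↔ Equi1 𝒜 A B := by
  constructor
  · rintro ⟨k, P, h, hP, hA, hB⟩
    choose N S hS hPS using hP
    refine ⟨Σ i : Fin k, Fin (N i), inferInstance, fun j => S j.1 j.2, fun j => (h j.1).1,
      fun j => j.2, fun j => (h j.1).2 j.2, fun j => hS _ _, ?_, ?_⟩
    · constructor
      · rintro ⟨i, l⟩ p ⟨hp1, hp2⟩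
        apply hA.1 i
        rw [hPS i]
        refine ⟨?_, ?_⟩
        · rw [hp2]; exact l.2
        · rw [hp2]; exact hp1
      · intro p hp
        obtain ⟨i, hi, hu⟩ := hA.2 p hp
        have hi' := hi
        rw [hPS i] at hi'
        refine ⟨⟨i, ⟨p.2, hi'.1⟩⟩, ⟨hi'.2, rfl⟩, ?_⟩
        rintro ⟨j, l⟩ ⟨hj1, hj2⟩
        have hj : p ∈ P j := by
          rw [hPS j]
          refine ⟨?_, ?_⟩
          · rw [hj2]; exact l.2
          · rw [hj2]; exact hj1
        have hji := hu j hj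
        subst hji
        have hl : l = ⟨p.2, hi'.1⟩ := Fin.ext hj2.symm
        rw [hl]
    · constructor
      · rintro ⟨i, l⟩ p ⟨hp1, hp2⟩
        apply hB.1 i
        refine ⟨((h i).1⁻¹ • p.1, l), ?_, ?_⟩
        · rw [hPS i]
          exact ⟨l.2, hp1⟩
        · unfold starMap
          rw [smul_inv_smul]
          exact Prod.ext rfl hp2.symm
      · intro p hp
        obtain ⟨i, ⟨q, hq, hqp⟩, hu⟩ := hB.2 p hp
        have hq' := hq
        rw [hPS i] at hq'
        refine ⟨⟨i, ⟨q.2, hq'.1⟩⟩, ⟨?_, ?_⟩, ?_⟩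
        · rw [← hqp]
          unfold starMap
          rw [inv_smul_smul]
          exact hq'.2
        · rw [← hqp]; rfl
        · rintro ⟨j, l⟩ ⟨hj1, hj2⟩
          have hj : p ∈ starMap (h j) '' P j := by
            refine ⟨((h j).1⁻¹ • p.1, l), ?_, ?_⟩
            · rw [hPS j]
              exact ⟨l.2, hj1⟩
            · unfold starMap
              rw [smul_inv_smul]
              exact Prod.ext rfl hj2.symm
          have hji := hu j hj
          subst hji
          have h0 : p.2 = (h j).2 l := hj2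
          have h1 : (h j).2 q.2 = (h j).2 l := by
            rw [← h0, ← hqp]; rfl
          have hl : l = ⟨q.2, hq'.1⟩ := Fin.ext ((h j).2.injective h1).symm
          rw [hl]
  · rintro ⟨ι, hι, S, g, m, n, hS, hA, hB⟩
    let e := (Fintype.equivFin ι).symm
    refine ⟨Fintype.card ι, fun i => {p | p.1 ∈ S (e i) ∧ p.2 = m (e i)},
      fun i => (g (e i), Equiv.swap (m (e i)) (n (e i))), fun i => single_mem 𝒜 (hS _) _, ?_, ?_⟩
    · constructor
      · intro i; exact hA.1 (e i)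
      · intro p hp
        obtain ⟨i, hi, hu⟩ := hA.2 p hp
        refine ⟨e.symm i, ?_, ?_⟩
        · simpa using hi
        · intro j hj
          rw [← hu (e j) hj, Equiv.symm_apply_apply]
    · have key : ∀ (i : ι) (p : X × ℕ), p ∈ starMap (g i, Equiv.swap (m i) (n i)) ''
          {p : X × ℕ | p.1 ∈ S i ∧ p.2 = m i} ↔ p ∈ {p : X × ℕ | (g i)⁻¹ • p.1 ∈ S i ∧ p.2 = n i} := by
        intro i p
        constructor
        · rintro ⟨q, ⟨hq1, hq2⟩, rfl⟩
          unfold starMap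
          simp only [Set.mem_ofPred_eq]
          rw [inv_smul_smul, hq2, Equiv.swap_apply_left]
          exact ⟨hq1, rfl⟩
        · rintro ⟨hp1, hp2⟩
          refine ⟨((g i)⁻¹ • p.1, m i), ⟨hp1, rfl⟩, ?_⟩
          unfold starMap
          simp only
          rw [smul_inv_smul, Equiv.swap_apply_left]
          exact Prod.ext rfl hp2.symm
      constructor
      · intro i p hp
        exact hB.1 (e i) ((key _ _).mp hp)
      · intro p hp
        obtain ⟨i, hi, hu⟩ := hB.2 p hp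
        refine ⟨e.symm i, ?_, ?_⟩
        · apply (key (e (e.symm i)) p).mpr
          rw [Equiv.apply_symm_apply]; exact hi
        · intro j hj
          rw [← hu (e j) ((key _ _).mp hj), Equiv.symm_apply_apply]

lemma Equi1.refl (𝒜 : InvAlg G X) {A : Set (X × ℕ)} (hA : A ∈ 𝒜.star) : Equi1 𝒜 A A := by
  obtain ⟨n, S, hS, rfl⟩ := hA
  refine ⟨Fin n, inferInstance, fun i => S i, fun _ => 1, fun i => i, fun i => i, fun i => hS i,
    ?_, ?_⟩
  · constructor
    · rintro i p ⟨hp1, hp2⟩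
      exact ⟨by rw [hp2]; exact i.2, by rw [hp2]; exact hp1⟩
    · rintro p ⟨hp1, hp2⟩
      exact ⟨⟨p.2, hp1⟩, ⟨hp2, rfl⟩, fun j hj => Fin.ext hj.2.symm⟩
  · simp only [inv_one, one_smul]
    constructor
    · rintro i p ⟨hp1, hp2⟩
      exact ⟨by rw [hp2]; exact i.2, by rw [hp2]; exact hp1⟩
    · rintro p ⟨hp1, hp2⟩
      exact ⟨⟨p.2, hp1⟩, ⟨hp2, rfl⟩, fun j hj => Fin.ext hj.2.symm⟩

lemma Equi1.symm {𝒜 : InvAlg G X} {A B : Set (X × ℕ)} (h : Equi1 𝒜 A B) : Equi1 𝒜 B A := by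
  obtain ⟨ι, hι, S, g, m, n, hS, hA, hB⟩ := h
  refine ⟨ι, hι, fun i => (fun x => g i • x) '' S i, fun i => (g i)⁻¹, n, m,
    fun i => 𝒜.smul_mem _ _ (hS i), ?_, ?_⟩
  · have : ∀ i, {p : X × ℕ | p.1 ∈ (fun x => g i • x) '' S i ∧ p.2 = n i} =
        {p : X × ℕ | (g i)⁻¹ • p.1 ∈ S i ∧ p.2 = n i} := by
      intro i
      ext p
      simp only [Set.mem_ofPred_eq, Set.mem_image]
      constructor
      · rintro ⟨⟨x, hx, hxp⟩, h2⟩
        rw [← hxp, inv_smul_smul]
        exact ⟨hx, h2⟩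
      · rintro ⟨h1, h2⟩
        exact ⟨⟨_, h1, smul_inv_smul _ _⟩, h2⟩
    simp only [this]
    exact hB
  · have : ∀ i, {p : X × ℕ | ((g i)⁻¹)⁻¹ • p.1 ∈ (fun x => g i • x) '' S i ∧ p.2 = m i} =
        {p : X × ℕ | p.1 ∈ S i ∧ p.2 = m i} := by
      intro i
      ext p
      simp only [Set.mem_ofPred_eq, Set.mem_image, inv_inv]
      constructor
      · rintro ⟨⟨x, hx, hxp⟩, h2⟩
        rw [smul_left_cancel_iff] at hxp
        rw [← hxp]
        exact ⟨hx, h2⟩
      · rintro ⟨h1, h2⟩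
        exact ⟨⟨_, h1, rfl⟩, h2⟩
    simp only [this]
    exact hA

lemma Equi1.trans {𝒜 : InvAlg G X} {A B C : Set (X × ℕ)} (h : Equi1 𝒜 A B) (h' : Equi1 𝒜 B C) :
    Equi1 𝒜 A C := by
  classical
  obtain ⟨ι, hι, S, g, m, n, hS, hA, hB⟩ := h
  obtain ⟨κ, hκ, T, k, m', n', hT, hB', hC⟩ := h'
  refine ⟨ι × κ, inferInstance, fun q => if n q.1 = m' q.2 then
    S q.1 ∩ (fun x => (g q.1)⁻¹ • x) '' T q.2 else ∅, fun q => k q.2 * g q.1, fun q => m q.1,
    fun q => n' q.2, ?_, ?_, ?_⟩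
  · intro q
    beta_reduce
    split_ifs
    · exact 𝒜.inter_mem _ (hS _) _ (𝒜.smul_mem _ _ (hT _))
    · exact 𝒜.empty_mem
  · have key : ∀ (q : ι × κ) (x : X), x ∈ (if n q.1 = m' q.2 then
        S q.1 ∩ (fun x => (g q.1)⁻¹ • x) '' T q.2 else ∅) ↔
        n q.1 = m' q.2 ∧ x ∈ S q.1 ∧ g q.1 • x ∈ T q.2 := by
      intro q x
      split_ifs with h
      · simp only [Set.mem_inter_iff, Set.mem_image, h, true_and]
        constructor
        · rintro ⟨h1, y, hy, rfl⟩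
          rw [smul_inv_smul]
          exact ⟨h1, hy⟩
        · rintro ⟨h1, h2⟩
          exact ⟨h1, _, h2, inv_smul_smul _ _⟩
      · simp only [Set.mem_empty_iff_false, h, false_and]
    simp only [key]
    constructor
    · rintro ⟨i, j⟩ p ⟨⟨h1, h2, h3⟩, h4⟩
      exact hA.1 i ⟨h2, h4⟩
    · intro p hp
      obtain ⟨i, hi, hu⟩ := hA.2 p hp
      have hb : (g i • p.1, n i) ∈ B := by
        apply hB.1 i
        change (g i)⁻¹ • g i • p.1 ∈ S i ∧ n i = n i
        rw [inv_smul_smul]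
        exact ⟨hi.1, rfl⟩
      obtain ⟨j, hj, hv⟩ := hB'.2 _ hb
      refine ⟨(i, j), ⟨⟨hj.2, hi.1, hj.1⟩, hi.2⟩, ?_⟩
      rintro ⟨i', j'⟩ ⟨⟨h1, h2, h3⟩, h4⟩
      have e1 := hu i' ⟨h2, h4⟩
      subst e1
      have e2 := hv j' ⟨h3, h1⟩
      rw [e2]
  · have key : ∀ (q : ι × κ) (x : X), (k q.2 * g q.1)⁻¹ • x ∈ (if n q.1 = m' q.2 then
        S q.1 ∩ (fun x => (g q.1)⁻¹ • x) '' T q.2 else ∅) ↔
        n q.1 = m' q.2 ∧ (g q.1)⁻¹ • (k q.2)⁻¹ • x ∈ S q.1 ∧ (k q.2)⁻¹ • x ∈ T q.2 := by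
      intro q x
      rw [mul_inv_rev, mul_smul]
      split_ifs with h
      · simp only [Set.mem_inter_iff, Set.mem_image, h, true_and]
        constructor
        · rintro ⟨h1, y, hy, hxy⟩
          rw [smul_left_cancel_iff] at hxy
          rw [← hxy] at h1 ⊢
          exact ⟨h1, hy⟩
        · rintro ⟨h1, h2⟩
          exact ⟨h1, _, h2, rfl⟩
      · simp only [Set.mem_empty_iff_false, h, false_and]
    simp only [key]
    constructor
    · rintro ⟨i, j⟩ p ⟨⟨h1, h2, h3⟩, h4⟩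
      exact hC.1 j ⟨h3, h4⟩
    · intro p hp
      obtain ⟨j, hj, hv⟩ := hC.2 p hp
      have hb : ((k j)⁻¹ • p.1, m' j) ∈ B := hB'.1 j ⟨hj.1, rfl⟩
      obtain ⟨i, hi, hu⟩ := hB.2 _ hb
      refine ⟨(i, j), ⟨⟨hi.2.symm, hi.1, hj.1⟩, hj.2⟩, ?_⟩
      rintro ⟨i', j'⟩ ⟨⟨h1, h2, h3⟩, h4⟩
      have e1 := hv j' ⟨h3, h4⟩
      subst e1
      have e2 := hu i' ⟨h2, h1.symm⟩
      rw [e2]

/-- Equidecomposability is an equivalence relation on `𝒜^*`. -/
def InvAlg.setoid (𝒜 : InvAlg G X) : Setoid 𝒜.star where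
  r A B := 𝒜.Equi A.1 B.1
  iseqv :=
    { refl := fun A => (equi_iff 𝒜 _ _).mpr (Equi1.refl 𝒜 A.2)
      symm := fun h => (equi_iff 𝒜 _ _).mpr ((equi_iff 𝒜 _ _).mp h).symm
      trans := fun h h' => (equi_iff 𝒜 _ _).mpr
        (((equi_iff 𝒜 _ _).mp h).trans ((equi_iff 𝒜 _ _).mp h')) }

/-- The set `𝒮(𝒜)` of types. -/
def InvAlg.Types (𝒜 : InvAlg G X) : Type := Quotient 𝒜.setoid

/-- The type of a member of `𝒜^*`. -/
def InvAlg.type (𝒜 : InvAlg G X) (A : 𝒜.star) : 𝒜.Types := Quotient.mk 𝒜.setoid A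

lemma lev_exists {𝒜 : InvAlg G X} (A : 𝒜.star) : ∃ n : ℕ, ∀ p ∈ A.1, p.2 < n := by
  obtain ⟨n, S, hS, h⟩ := A.2
  exact ⟨n, fun p hp => by rw [h] at hp; exact hp.1⟩

/-- The least `n` such that all levels of `A` are less than `n`. -/
noncomputable def lev {𝒜 : InvAlg G X} (A : 𝒜.star) : ℕ := sInf {n : ℕ | ∀ p ∈ A.1, p.2 < n}

lemma lev_spec {𝒜 : InvAlg G X} (A : 𝒜.star) : ∀ p ∈ A.1, p.2 < lev A :=
  Nat.sInf_mem (lev_exists A)

/-- The set obtained from `B` by shifting all levels upward by `N`. -/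
def shiftUp (N : ℕ) (B : Set (X × ℕ)) : Set (X × ℕ) := {p | N ≤ p.2 ∧ (p.1, p.2 - N) ∈ B}

/-- The union of `A` and of the set obtained from `B` by shifting its levels above those of
`A`. -/
noncomputable def addSets {𝒜 : InvAlg G X} (A B : 𝒜.star) : 𝒜.star :=
  ⟨A.1 ∪ shiftUp (lev A) B.1, by
    obtain ⟨n, S, hS, hA⟩ := A.2
    obtain ⟨k, T, hT, hB⟩ := B.2
    refine ⟨lev A + k, fun j => if j < lev A then (if j < n then S j else ∅) else T (j - lev A),
      ?_, ?_⟩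
    · intro j
      beta_reduce
      split_ifs
      · exact hS j
      · exact 𝒜.empty_mem
      · exact hT _
    · ext p
      simp only [Set.mem_union, shiftUp, Set.mem_ofPred_eq]
      constructor
      · rintro (h | ⟨h1, h2⟩)
        · have h3 := lev_spec A p h
          rw [if_pos h3]
          rw [hA] at h
          rw [if_pos h.1]
          exact ⟨by omega, h.2⟩
        · rw [hB] at h2
          rw [if_neg (by omega)]
          have h3 : p.2 - lev A < k := h2.1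
          exact ⟨by omega, h2.2⟩
      · rintro ⟨h1, h2⟩
        by_cases h3 : p.2 < lev A
        · rw [if_pos h3] at h2
          by_cases h4 : p.2 < n
          · rw [if_pos h4] at h2
            left
            rw [hA]
            exact ⟨h4, h2⟩
          · rw [if_neg h4] at h2
            exact absurd h2 (Set.notMem_empty _)
        · rw [if_neg h3] at h2
          right
          refine ⟨by omega, ?_⟩
          rw [hB]
          exact ⟨show p.2 - lev A < k by omega, h2⟩⟩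

lemma Equi1.add {𝒜 : InvAlg G X} {A A' B B' : Set (X × ℕ)} {N N' : ℕ}
    (hN : ∀ p ∈ A, p.2 < N) (hN' : ∀ p ∈ A', p.2 < N') (h : Equi1 𝒜 A A') (h' : Equi1 𝒜 B B') :
    Equi1 𝒜 (A ∪ shiftUp N B) (A' ∪ shiftUp N' B') := by
  obtain ⟨ι, hι, S, g, m, n, hS, hA, hA'⟩ := h
  obtain ⟨κ, hκ, T, k, m', n', hT, hB, hB'⟩ := h'
  refine ⟨ι ⊕ κ, inferInstance, Sum.elim S T, Sum.elim g k, Sum.elim m (fun j => m' j + N),
    Sum.elim n (fun j => n' j + N'), ?_, ?_, ?_⟩
  · rintro (i | j)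
    · exact hS i
    · exact hT j
  · constructor
    · rintro (i | j) p hp
      · exact Or.inl (hA.1 i hp)
      · right
        obtain ⟨hp1, hp2⟩ := hp
        simp only [Sum.elim_inr] at hp1 hp2
        exact ⟨by omega, hB.1 j ⟨hp1, by simp only; omega⟩⟩
    · rintro p (hp | ⟨hp1, hp2⟩)
      · obtain ⟨i, hi, hu⟩ := hA.2 p hp
        refine ⟨Sum.inl i, hi, ?_⟩
        rintro (i' | j') hj
        · rw [hu i' hj]
        · have := hN p hp
          have h2 := hj.2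
          simp only [Sum.elim_inr] at h2
          omega
      · obtain ⟨j, hj, hu⟩ := hB.2 _ hp2
        have hj2 : p.2 - N = m' j := hj.2
        refine ⟨Sum.inr j, ⟨hj.1, show p.2 = m' j + N by omega⟩, ?_⟩
        rintro (i' | j') hj'
        · have := hN p (hA.1 i' hj')
          omega
        · have h2 : p.2 = m' j' + N := hj'.2
          rw [hu j' ⟨hj'.1, show p.2 - N = m' j' by omega⟩]
  · constructor
    · rintro (i | j) p hp
      · exact Or.inl (hA'.1 i hp)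
      · right
        obtain ⟨hp1, hp2⟩ := hp
        simp only [Sum.elim_inr] at hp1 hp2
        exact ⟨by omega, hB'.1 j ⟨hp1, by simp only; omega⟩⟩
    · rintro p (hp | ⟨hp1, hp2⟩)
      · obtain ⟨i, hi, hu⟩ := hA'.2 p hp
        refine ⟨Sum.inl i, hi, ?_⟩
        rintro (i' | j') hj
        · rw [hu i' hj]
        · have := hN' p hp
          have h2 := hj.2
          simp only [Sum.elim_inr] at h2
          omega
      · obtain ⟨j, hj, hu⟩ := hB'.2 _ hp2
        have hj2 : p.2 - N' = n' j := hj.2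
        refine ⟨Sum.inr j, ⟨hj.1, show p.2 = n' j + N' by omega⟩, ?_⟩
        rintro (i' | j') hj'
        · have := hN' p (hA'.1 i' hj')
          omega
        · have h2 : p.2 = n' j' + N' := hj'.2
          rw [hu j' ⟨hj'.1, show p.2 - N' = n' j' by omega⟩]

/-- The sum of types. -/
noncomputable instance (𝒜 : InvAlg G X) : Add 𝒜.Types :=
  ⟨Quotient.map₂ addSets (by
    intro A A' hA B B' hB
    exact (equi_iff 𝒜 _ _).mpr (Equi1.add (lev_spec A) (lev_spec A')
      ((equi_iff 𝒜 _ _).mp hA) ((equi_iff 𝒜 _ _).mp hB)))⟩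

/-- The sum of `n + 1` copies of a type. -/
noncomputable def InvAlg.copies (𝒜 : InvAlg G X) (α : 𝒜.Types) : ℕ → 𝒜.Types
  | 0 => α
  | n + 1 => 𝒜.copies α n + α

/-- The cancellation law: for all `n ≥ 1`, `n α = n β` implies `α = β`. (The sum of `n` copies is
`𝒜.copies α (n - 1)`.) -/
def InvAlg.CancellationLaw (𝒜 : InvAlg G X) : Prop :=
  ∀ n : ℕ, 1 ≤ n → ∀ α β : 𝒜.Types, 𝒜.copies α (n - 1) = 𝒜.copies β (n - 1) → α = β

end Pool.Agent.H176R3.Cancel
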