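import Pool.Agent.H176R3.VirShift

/-!
Iterated commutators with the Virasoro generators.
-/

set_option autoImplicit false
set_option linter.unusedSectionVars false

namespace Pool.Agent.H176R3.Vir

variable {A : Type*} [Ring A] [Algebra ℂ A]

/-- The relations of the Virasoro algebra with central charge `c`. -/
def IsVir (c : ℂ) (e : ℤ → A) : Prop :=
  ∀ m n : ℤ, e m * e n - e n * e m = ((m - n : ℤ) : ℂ) • e (m + n) +
    (if m + n = 0 then algebraMap ℂ A (c * ((m : ℂ) ^ 3 - (m : ℂ)) / 12) else 0)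

/-- Commutator with `e m`. -/
def ad (e : ℤ → A) (m : ℤ) (x : A) : A := e m * x - x * e m

variable (e : ℤ → A)

lemma ad_add (m : ℤ) (x y : A) : ad e m (x + y) = ad e m x + ad e m y := by
  unfold ad; noncomm_ring

lemma ad_zero (m : ℤ) : ad e m 0 = 0 := by unfold ad; simp

lemma ad_one (m : ℤ) : ad e m 1 = 0 := by unfold ad; simp

lemma ad_smul (m : ℤ) (r : ℂ) (x : A) : ad e m (r • x) = r • ad e m x := by
  unfold ad; simp only [mul_smul_comm, smul_mul_assoc, smul_sub]

lemma ad_mul (m : ℤ) (x y : A) : ad e m (x * y) = ad e m x * y + x * ad e m y := by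
  unfold ad; noncomm_ring

/-- Iterated commutators, along the sorted elements of `T`. -/
def adT (T : Finset ℕ) (n : G) (x : A) : A := (T.sort (· ≤ ·)).foldr (fun a y => ad e (n a) y) x

@[simp] lemma adT_empty (n : G) (x : A) : adT e ∅ n x = x := by simp [adT]

lemma adT_insert {T : Finset ℕ} {a : ℕ} (h : ∀ b ∈ T, a < b) (n : G) (x : A) :
    adT e (insert a T) n x = ad e (n a) (adT e T n x) := by
  unfold adT
  rw [Finset.sort_insert (· ≤ ·) (fun b hb => (h b hb).le) (fun ha => lt_irrefl _ (h a ha))]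
  rfl

lemma ad_sum (m : ℤ) {ι : Type*} (s : Finset ι) (f : ι → A) :
    ad e m (∑ i ∈ s, f i) = ∑ i ∈ s, ad e m (f i) := by
  unfold ad
  rw [Finset.mul_sum, Finset.sum_mul, Finset.sum_sub_distrib]

/-- The Leibniz rule. -/
lemma adT_mul (T : Finset ℕ) (n : G) (x y : A) :
    adT e T n (x * y) = ∑ S ∈ T.powerset, adT e S n x * adT e (T \ S) n y := by
  induction T using Finset.induction_on_min with
  | empty => simp
  | insert a T h ih =>
    have haT : a ∉ T := fun ha => lt_irrefl _ (h a ha)
    rw [adT_insert e h, ih, Finset.sum_powerset_insert haT, ad_sum, ← Finset.sum_add_distrib]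
    refine Finset.sum_congr rfl fun S hS => ?_
    have hST : S ⊆ T := Finset.mem_powerset.mp hS
    have haS : a ∉ S := fun ha => haT (hST ha)
    have h1 : insert a T \ S = insert a (T \ S) := by
      ext b
      simp only [Finset.mem_sdiff, Finset.mem_insert]
      constructor
      · rintro ⟨rfl | hb, hbS⟩
        · exact Or.inl rfl
        · exact Or.inr ⟨hb, hbS⟩
      · rintro (rfl | ⟨hb, hbS⟩)
        · exact ⟨Or.inl rfl, haS⟩
        · exact ⟨Or.inr hb, hbS⟩
    have h2 : insert a T \ insert a S = T \ S := by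
      ext b
      simp only [Finset.mem_sdiff, Finset.mem_insert, not_or]
      constructor
      · rintro ⟨rfl | hb, hba, hbS⟩
        · exact absurd rfl hba
        · exact ⟨hb, hbS⟩
      · rintro ⟨hb, hbS⟩
        exact ⟨Or.inr hb, fun hba => haT (hba ▸ hb), hbS⟩
    rw [h1, h2, ad_mul, adT_insert e (fun b hb => h b (Finset.mem_sdiff.mp hb).1),
      adT_insert e (fun b hb => h b (hST hb)), add_comm]

lemma adT_one {T : Finset ℕ} (hT : T.Nonempty) (n : G) : adT e T n (1 : A) = 0 := by
  induction T using Finset.induction_on_min with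
  | empty => exact absurd hT Finset.not_nonempty_empty
  | insert a T h ih =>
    rw [adT_insert e h]
    by_cases hT' : T.Nonempty
    · rw [ih hT', ad_zero]
    · rw [Finset.not_nonempty_iff_eq_empty.mp hT', adT_empty, ad_one]

lemma adT_add (T : Finset ℕ) (n : G) (x y : A) :
    adT e T n (x + y) = adT e T n x + adT e T n y := by
  induction T using Finset.induction_on_min with
  | empty => simp
  | insert a T h ih => rw [adT_insert e h, adT_insert e h, adT_insert e h, ih, ad_add]

lemma adT_smul (T : Finset ℕ) (n : G) (r : ℂ) (x : A) :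
    adT e T n (r • x) = r • adT e T n x := by
  induction T using Finset.induction_on_min with
  | empty => simp
  | insert a T h ih => rw [adT_insert e h, adT_insert e h, ih, ad_smul]

lemma adT_ind (T : Finset ℕ) (x : A) {a : ℕ} (ha : a ∉ T) : Ind (fun n => adT e T n x) a := by
  intro n
  beta_reduce
  induction T using Finset.induction_on_min with
  | empty => simp
  | insert b T h ih =>
    rw [adT_insert e h, adT_insert e h, ih (fun h' => ha (Finset.mem_insert_of_mem h'))]
    have : (n + dl a) b = n b := by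
      rw [Pi.add_apply, dl_apply, if_neg, add_zero]
      rintro rfl
      exact ha (Finset.mem_insert_self _ _)
    rw [this]

lemma adT_mem (I : Submodule ℂ A) (hI : ∀ m x, x ∈ I → ad e m x ∈ I) (T : Finset ℕ) (n : G)
    {x : A} (hx : x ∈ I) : adT e T n x ∈ I := by
  induction T using Finset.induction_on_min with
  | empty => simpa using hx
  | insert a T h ih => rw [adT_insert e h]; exact hI _ _ ih

variable {e}

/-- The cubic coefficient. -/
noncomputable def kap (c : ℂ) (m : ℤ) : ℂ := c * ((m : ℂ) ^ 3 - (m : ℂ)) / 12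

lemma ad_e {c : ℂ} (he : IsVir c e) (m v : ℤ) :
    ad e m (e v) = ((m - v : ℤ) : ℂ) • e (v + m) + (if v + m = 0 then kap c m else 0) • 1 := by
  unfold ad
  rw [he m v, add_comm m v, Algebra.algebraMap_eq_smul_one]
  unfold kap
  split_ifs
  · rfl
  · rw [zero_smul]

lemma aff_coord (a : ℕ) : Aff (fun n => (n a : ℂ)) := by
  intro b
  refine ⟨if a = b then 1 else 0, fun n => ?_⟩
  beta_reduce
  rw [Pi.add_apply, dl_apply]
  split_ifs <;> simp

lemma aff_const (r : ℂ) : Aff (fun _ => r) := fun _ => ⟨0, fun _ => (add_zero _).symm⟩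

lemma Aff.add {l l' : G → ℂ} (h : Aff l) (h' : Aff l') : Aff (fun n => l n + l' n) := by
  intro a
  obtain ⟨α, hα⟩ := h a
  obtain ⟨β, hβ⟩ := h' a
  exact ⟨α + β, fun n => by beta_reduce; rw [hα, hβ]; ring⟩

lemma Aff.sub {l l' : G → ℂ} (h : Aff l) (h' : Aff l') : Aff (fun n => l n - l' n) := by
  intro a
  obtain ⟨α, hα⟩ := h a
  obtain ⟨β, hβ⟩ := h' a
  exact ⟨α - β, fun n => by beta_reduce; rw [hα, hβ]; ring⟩

lemma Aff.mul_const {l : G → ℂ} (h : Aff l) (r : ℂ) : Aff (fun n => r * l n) := by
  intro a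
  obtain ⟨α, hα⟩ := h a
  exact ⟨r * α, fun n => by beta_reduce; rw [hα]; ring⟩

lemma aff_sum (T : Finset ℕ) : Aff (fun n => ((∑ a ∈ T, n a : ℤ) : ℂ)) := by
  induction T using Finset.induction_on with
  | empty => simpa using aff_const 0
  | insert a T ha ih =>
    have h := (aff_coord a).add ih
    have e1 : (fun n : G => ((∑ b ∈ insert a T, n b : ℤ) : ℂ)) =
        fun n : G => ((n a : ℤ) : ℂ) + ((∑ b ∈ T, n b : ℤ) : ℂ) := by
      funext n
      rw [Finset.sum_insert ha]
      push_cast
      rfl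
    rw [e1]
    exact h

/-- The form of an iterated commutator with a generator. -/
lemma adT_e {c : ℂ} (he : IsVir c e) (T : Finset ℕ) (v : ℤ) :
    ∃ p q : G → ℂ, PolyF T.card p ∧ (∃ k ≤ T.card + 2, PolyF k q) ∧
      ∀ n : G, adT e T n (e v) = p n • e (v + ∑ a ∈ T, n a) +
        (q n * (if v + ∑ a ∈ T, n a = 0 then 1 else 0)) • 1 := by
  induction T using Finset.induction_on_min with
  | empty =>
    refine ⟨fun _ => 1, fun _ => 0, PolyF.const 1, ⟨0, by simp, PolyF.const 0⟩, fun n => ?_⟩
    simp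
  | insert a T h ih =>
    obtain ⟨p, q, hp, -, hpq⟩ := ih
    have haT : a ∉ T := fun ha => lt_irrefl _ (h a ha)
    refine ⟨fun n => ((n a : ℂ) - ((v : ℂ) + ((∑ b ∈ T, n b : ℤ) : ℂ))) * p n,
      fun n => (c / 12 * (n a : ℂ)) * (((n a : ℂ) - 1) * (((n a : ℂ) + 1) * p n)), ?_, ?_, ?_⟩
    · rw [Finset.card_insert_of_notMem haT]
      exact PolyF.mul ((aff_coord a).sub ((aff_const _).add (aff_sum T))) hp
    · refine ⟨T.card + 1 + 1 + 1, ?_, ?_⟩
      · rw [Finset.card_insert_of_notMem haT]
      · exact PolyF.mul ((aff_coord a).mul_const _) (PolyF.mul ((aff_coord a).sub (aff_const 1))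
          (PolyF.mul ((aff_coord a).add (aff_const 1)) hp))
    · intro n
      rw [adT_insert e h, hpq n, ad_add, ad_smul, ad_smul, ad_one, smul_zero, add_zero,
        ad_e he, Finset.sum_insert haT]
      have e1 : v + ∑ b ∈ T, n b + n a = v + (n a + ∑ b ∈ T, n b) := by ring
      rw [e1, smul_add, smul_smul, smul_smul]
      congr 1
      · congr 1
        push_cast
        ring
      · congr 1
        unfold kap
        split_ifs
        · ring
        · ring

/-- If `T` contains `a` and `b`, then a high power of the difference kills. -/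
lemma kill {c : ℂ} (he : IsVir c e) (T : Finset ℕ) (v : ℤ) {a b : ℕ} (ha : a ∈ T) (hb : b ∈ T)
    {R : ℕ} (hR : T.card + 3 ≤ R) : act A (D a b ^ R) (fun n => adT e T n (e v)) = 0 := by
  obtain ⟨p, q, hp, ⟨k, hk, hq⟩, h⟩ := adT_e he T v
  have hs : ∀ (a : ℕ), a ∈ T → ∀ n : G, ∑ j ∈ T, (n + dl a) j = ∑ j ∈ T, n j + 1 := by
    intro a ha n
    simp only [Pi.add_apply]
    rw [Finset.sum_add_distrib]
    congr 1
    simp only [dl_apply]
    rw [Finset.sum_ite_eq' T a, if_pos ha]
  have h1 : act A (D a b) (fun n : G => e (v + ∑ j ∈ T, n j)) = 0 := by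
    funext n
    rw [act_D, hs a ha, hs b hb, sub_self]; rfl
  have h2 : act A (D a b) (fun n : G => ((if v + ∑ j ∈ T, n j = 0 then 1 else 0 : ℂ) • (1 : A))) =
      0 := by
    funext n
    rw [act_D, hs a ha, hs b hb, sub_self]; rfl
  have h3 : (fun n => adT e T n (e v)) = (fun n => p n • e (v + ∑ j ∈ T, n j)) +
      fun n => q n • ((if v + ∑ j ∈ T, n j = 0 then 1 else 0 : ℂ) • (1 : A)) := by
    funext n
    rw [h n, Pi.add_apply, smul_smul]
  rw [h3, map_add, act_pow_mono (show T.card + 1 ≤ R by omega) (act_smul_poly hp _ h1),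
    act_pow_mono (show k + 1 ≤ R by omega) (act_smul_poly hq _ h2), add_zero]

lemma dl_self (a : ℕ) : dl a a = 1 := by rw [dl_apply, if_pos rfl]

lemma dl_ne {a b : ℕ} (h : a ≠ b) : dl a b = 0 := by rw [dl_apply, if_neg h.symm]

lemma adT_pair {a b : ℕ} (hab : a < b) (n : G) (x : A) :
    adT e {a, b} n x = ad e (n a) (ad e (n b) x) := by
  have h1 : ({a, b} : Finset ℕ) = insert a (insert b ∅) := by simp
  rw [h1, adT_insert e (T := insert b ∅) (by simpa using hab), adT_insert e (T := ∅) (by simp), adT_empty]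

/-- The main computation: the fourth difference for a pair extracts the central term. -/
lemma pair {c : ℂ} (he : IsVir c e) {a b : ℕ} (hab : a < b) (v : ℤ) (n : G) :
    act A (D a b ^ 4) (fun n => adT e {a, b} n (e v)) n =
      (if v + (n a + n b) + 4 = 0 then -2 * c else 0) • 1 := by
  have h0 : ∀ x y : ℤ, ad e x (ad e y (e v)) =
      (((y - v : ℤ) : ℂ) * ((x - (v + y) : ℤ) : ℂ)) • e (v + y + x) +
      (((y - v : ℤ) : ℂ) * (if v + y + x = 0 then kap c x else 0)) • 1 := by
    intro x y
    rw [ad_e he, ad_add, ad_smul, ad_smul, ad_one, smul_zero, add_zero, ad_e he, smul_add,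
      smul_smul, smul_smul]
  rw [act_D4]
  simp only [adT_pair hab, h0, Pi.add_apply, dl_self, dl_ne hab.ne, dl_ne hab.ne', add_zero]
  have e1 : v + n b + (n a + 1 + 1 + 1 + 1) = v + (n a + n b) + 4 := by ring
  have e2 : v + (n b + 1) + (n a + 1 + 1 + 1) = v + (n a + n b) + 4 := by ring
  have e3 : v + (n b + 1 + 1) + (n a + 1 + 1) = v + (n a + n b) + 4 := by ring
  have e4 : v + (n b + 1 + 1 + 1) + (n a + 1) = v + (n a + n b) + 4 := by ring
  have e5 : v + (n b + 1 + 1 + 1 + 1) + n a = v + (n a + n b) + 4 := by ring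
  rw [e1, e2, e3, e4, e5]
  unfold kap
  split_ifs with h
  · push_cast
    match_scalars
    · ring
    · ring
  · push_cast
    match_scalars
    · ring
    · ring

end Pool.Agent.H176R3.Vir
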