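import Pool.Agent.H176R3.VirMain

/-!
Every nonzero subspace stable under commutators with the Virasoro generators contains `1`, when
the central charge is nonzero.
-/

set_option autoImplicit false
set_option linter.unusedSectionVars false

namespace Pool.Agent.H176R3.Vir

variable {A : Type*} [Ring A] [Algebra ℂ A] (e : ℤ → A)

/-- The span of the words of length less than `k`. -/
def Fl (k : ℕ) : Submodule ℂ A := Submodule.span ℂ {x | ∃ w : List ℤ, w.length < k ∧ x = wd e w}

variable {e}

lemma wd_mem {w : List ℤ} {k : ℕ} (h : w.length < k) : wd e w ∈ Fl e k :=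
  Submodule.subset_span ⟨w, h, rfl⟩

lemma Fl_mono {k m : ℕ} (h : k ≤ m) : Fl e k ≤ Fl e m :=
  Submodule.span_mono (fun _ ⟨w, hw, hx⟩ => ⟨w, hw.trans_le h, hx⟩)

lemma e_mul_mem (v : ℤ) {k : ℕ} {x : A} (hx : x ∈ Fl e k) : e v * x ∈ Fl e (k + 1) := by
  unfold Fl at hx
  induction hx using Submodule.span_induction with
  | mem y hy =>
    obtain ⟨w, hw, rfl⟩ := hy
    rw [← wd_cons]
    exact wd_mem (by simpa using hw)
  | zero => rw [mul_zero]; exact Submodule.zero_mem _
  | add y z _ _ hy hz => rw [mul_add]; exact Submodule.add_mem _ hy hz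
  | smul a y _ hy => rw [mul_smul_comm]; exact Submodule.smul_mem _ _ hy

lemma perm_mem {c : ℂ} (he : IsVir c e) {w w' : List ℤ} (h : w.Perm w') :
    wd e w - wd e w' ∈ Fl e w.length := by
  induction h with
  | nil => simp
  | cons v h ih =>
    rw [wd_cons, wd_cons, ← mul_sub]
    exact e_mul_mem v ih
  | swap x y l =>
    have h1 : wd e (y :: x :: l) - wd e (x :: y :: l) = ((y - x : ℤ) : ℂ) • wd e ((y + x) :: l) +
        (if y + x = 0 then c * ((y : ℂ) ^ 3 - (y : ℂ)) / 12 else 0) • wd e l := by
      simp only [wd_cons]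
      rw [← mul_assoc, ← mul_assoc, ← sub_mul, he y x, add_mul, smul_mul_assoc]
      congr 1
      split_ifs
      · rw [Algebra.smul_def]
      · rw [zero_mul, zero_smul]
    rw [h1]
    refine Submodule.add_mem _ (Submodule.smul_mem _ _ (wd_mem ?_))
      (Submodule.smul_mem _ _ (wd_mem ?_))
    · simp
    · simp
  | trans h1 h2 ih1 ih2 =>
    have := Submodule.add_mem _ ih1 (by rw [h1.length_eq]; exact ih2)
    rwa [sub_add_sub_cancel] at this

/-- Canonical (sorted) words. -/
def Can (w : List ℤ) : Prop := (w : Multiset ℤ).sort (· ≤ ·) = w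

lemma Can.inj {w w' : List ℤ} (h : Can w) (h' : Can w') (hww : (w : Multiset ℤ) = w') :
    w = w' := by
  rw [← h, ← h', hww]

lemma Fl_succ {c : ℂ} (he : IsVir c e) (d : ℕ) :
    Fl e (d + 1) ≤ Submodule.span ℂ (wd e '' {w | w.length = d ∧ Can w}) ⊔ Fl e d := by
  unfold Fl
  rw [Submodule.span_le]
  rintro x ⟨w, hw, rfl⟩
  rcases Nat.lt_or_ge w.length d with h | h
  · exact Submodule.mem_sup_right (wd_mem h)
  · have hwd : w.length = d := by omega
    set w' := (w : Multiset ℤ).sort (· ≤ ·) with hw'
    have h1 : (w' : Multiset ℤ) = w := Multiset.sort_eq _ _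
    have h2 : w'.Perm w := Multiset.coe_eq_coe.mp h1
    have h3 := perm_mem he h2
    have h4 : wd e w = wd e w' - (wd e w' - wd e w) := by abel
    rw [h4]
    apply Submodule.sub_mem
    · apply Submodule.mem_sup_left
      refine Submodule.subset_span ⟨w', ⟨?_, ?_⟩, rfl⟩
      · rw [h2.length_eq, hwd]
      · unfold Can
        rw [h1]
    · apply Submodule.mem_sup_right
      rw [h2.length_eq, hwd] at h3
      exact h3

lemma act_map (p : K) (H : G → ℂ) :
    act A p (fun n => algebraMap ℂ A (H n)) = fun n => algebraMap ℂ A (act ℂ p H n) := by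
  induction p using AddMonoidAlgebra.induction_linear with
  | zero => funext n; simp
  | add p q hp hq =>
    rw [map_add, LinearMap.add_apply, hp, hq]
    funext n
    simp
  | single k r =>
    funext n
    unfold act
    rw [AddMonoidAlgebra.lift_single, AddMonoidAlgebra.lift_single]
    simp [shift, Algebra.smul_def]

lemma act_Dpow_ne {d : ℕ} {a b : ℕ} (ha : a / 2 < d) (hab : a / 2 ≠ b / 2) (k : ℕ) {H : G → ℂ}
    (hH : Bdd d H) (hne : H ≠ 0) :
    Bdd d (act ℂ (D a b ^ k) H) ∧ act ℂ (D a b ^ k) H ≠ 0 := by
  induction k with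
  | zero => rw [pow_zero, act_one]; exact ⟨hH, hne⟩
  | succ k ih =>
    rw [act_pow_succ']
    exact ⟨ih.1.act_D a b, fun h => ih.2 (ih.1.ne_zero ha hab h)⟩

lemma act_Q_ne {d : ℕ} {H : G → ℂ} (hH : Bdd d H) (hne : H ≠ 0) : act ℂ (Q d) H ≠ 0 := by
  have key : ∀ S : Finset (ℕ × ℕ), S ⊆ cross d →
      Bdd d (act ℂ (∏ p ∈ S, D p.1 p.2 ^ (2 * d + 3)) H) ∧
        act ℂ (∏ p ∈ S, D p.1 p.2 ^ (2 * d + 3)) H ≠ 0 := by
    intro S
    induction S using Finset.induction_on with
    | empty => intro _; rw [Finset.prod_empty, act_one]; exact ⟨hH, hne⟩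
    | insert p S hp ih =>
      intro hS
      have h1 := ih ((Finset.subset_insert _ _).trans hS)
      have h2 := hS (Finset.mem_insert_self p S)
      unfold cross at h2
      simp only [Finset.mem_filter, Finset.mem_product, Finset.mem_range] at h2
      rw [Finset.prod_insert hp, act_mul]
      exact act_Dpow_ne (by omega) h2.2 _ h1.1 h1.2
  exact (key _ (Finset.Subset.refl _)).2

/-- Every nonzero subspace stable under commutators contains `1`. -/
theorem one_mem {c : ℂ} (hc : c ≠ 0) (he : IsVir c e) (I : Submodule ℂ A)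
    (hI : ∀ m x, x ∈ I → ad e m x ∈ I) {x : A} (hx : x ∈ I) (hx0 : x ≠ 0) {k : ℕ}
    (hk : x ∈ Fl e k) : (1 : A) ∈ I := by
  classical
  have hex : ∃ k : ℕ, ∃ x ∈ I, x ≠ 0 ∧ x ∈ Fl e k := ⟨k, x, hx, hx0, hk⟩
  clear hx hx0 hk
  obtain ⟨y, hy, hy0, hyk⟩ := Nat.find_spec hex
  have hmin : ∀ m < Nat.find hex, ∀ z ∈ I, z ∈ Fl e m → z = 0 := by
    intro m hm z hz hzm
    by_contra h
    exact Nat.find_min hex hm ⟨z, hz, h, hzm⟩
  obtain ⟨d, hd⟩ : ∃ d, Nat.find hex = d + 1 := by
    rcases Nat.eq_zero_or_pos (Nat.find hex) with h | h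
    · exfalso
      rw [h] at hyk
      unfold Fl at hyk
      have : {x : A | ∃ w : List ℤ, w.length < 0 ∧ x = wd e w} = ∅ := by
        ext z; simp
      rw [this, Submodule.span_empty] at hyk
      exact hy0 ((Submodule.mem_bot ℂ).mp hyk)
    · exact ⟨Nat.find hex - 1, by omega⟩
  rw [hd] at hyk hmin
  have h1 := Fl_succ he d hyk
  rw [Submodule.mem_sup] at h1
  obtain ⟨s, hs, t, ht, hst⟩ := h1
  rw [Finsupp.mem_span_image_iff_linearCombination] at hs
  obtain ⟨l, hl, hls⟩ := hs
  rw [Finsupp.mem_supported] at hl
  have hl0 : l ≠ 0 := by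
    rintro rfl
    rw [map_zero] at hls
    rw [← hls, zero_add] at hst
    exact hy0 (hmin d (Nat.lt_succ_self d) y hy (hst ▸ ht))
  -- the operator
  set T := TJ (Finset.range d) with hT
  have hTsub : T ⊆ Finset.range (2 * d) := by
    intro a ha
    have := Finset.mem_range.mp (mem_TJ.mp ha)
    rw [Finset.mem_range]
    omega
  have hTcard : d ≤ (T.image (· / 2)).card := by
    have : Finset.range d ⊆ T.image (· / 2) := by
      intro i hi
      rw [Finset.mem_image]
      refine ⟨2 * i, ?_, by omega⟩
      rw [hT, mem_TJ]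
      have : 2 * i / 2 = i := by omega
      rwa [this]
    simpa using Finset.card_le_card this
  have hone : ∀ a ∈ T, Ind (fun _ : G => (1 : A)) a := fun _ _ _ => rfl
  have hlow : ∀ t ∈ Fl e d, act A (PJ d (Finset.range d)) (fun n => adT e T n t) = 0 := by
    intro t ht
    unfold Fl at ht
    induction ht using Submodule.span_induction with
    | mem z hz =>
      obtain ⟨w, hw, rfl⟩ := hz
      have h2 := vanish he w T hTsub (hw.trans_le hTcard) (fun _ => 1) hone
      simp only [one_mul] at h2
      unfold PJ
      rw [mul_comm, act_mul, h2, map_zero]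
    | zero =>
      have : (fun n => adT e T n 0) = (0 : G → A) := by
        funext n
        have := adT_smul e T n 0 0
        rw [zero_smul, zero_smul] at this
        exact this
      rw [this, map_zero]
    | add z z' _ _ hz hz' =>
      have : (fun n => adT e T n (z + z')) = (fun n => adT e T n z) + fun n => adT e T n z' := by
        funext n
        exact adT_add e T n z z'
      rw [this, map_add, hz, hz', add_zero]
    | smul r z _ hz =>
      have : (fun n => adT e T n (r • z)) = r • (fun n => adT e T n z) := by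
        funext n
        exact adT_smul e T n r z
      rw [this, map_smul, hz, smul_zero]
  have htop : ∀ w : List ℤ, w.length = d →
      act A (PJ d (Finset.range d)) (fun n => adT e T n (wd e w)) =
        act A (Q d) (fun n => algebraMap ℂ A (GG c (bb n) (Finset.range d) w)) := by
    intro w hw
    have h2 := evaluate he w (Finset.range d) (Finset.Subset.refl _)
      (by rw [Finset.card_range, hw]) (fun _ => 1) hone
    simpa only [one_mul] using h2
  set H : G → ℂ := fun n => ∑ w ∈ l.support, l w * GG c (bb n) (Finset.range d) w with hH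
  have hval : act A (PJ d (Finset.range d)) (fun n => adT e T n y) =
      fun n => algebraMap ℂ A (act ℂ (Q d) H n) := by
    have h2 : (fun n => adT e T n y) = (∑ w ∈ l.support, l w • fun n => adT e T n (wd e w)) +
        fun n => adT e T n t := by
      funext n
      rw [← hst, adT_add, Pi.add_apply, ← hls, Finsupp.linearCombination_apply, Finsupp.sum,
        Finset.sum_apply]
      congr 1
      have h3 : ∀ S : Finset (List ℤ), adT e T n (∑ w ∈ S, l w • wd e w) =
          ∑ w ∈ S, l w • adT e T n (wd e w) := by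
        intro S
        induction S using Finset.induction_on with
        | empty =>
          rw [Finset.sum_empty, Finset.sum_empty]
          have := adT_smul e T n 0 0
          rw [zero_smul, zero_smul] at this
          exact this
        | insert w S hw ih =>
          rw [Finset.sum_insert hw, Finset.sum_insert hw, adT_add, adT_smul, ih]
      rw [h3]
      rfl
    rw [h2, map_add, hlow t ht, add_zero, map_sum]
    have h3 : ∀ w ∈ l.support, act A (PJ d (Finset.range d)) (l w • fun n => adT e T n (wd e w)) =
        act A (Q d) (fun n => algebraMap ℂ A (l w * GG c (bb n) (Finset.range d) w)) := by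
      intro w hw
      rw [map_smul, htop w (hl hw).1, ← map_smul]
      congr 1
      funext n
      rw [map_mul, ← Algebra.smul_def]
      rfl
    rw [Finset.sum_congr rfl h3, ← act_sum, ← act_map]
    congr 1
    funext n
    rw [hH, map_sum]
  -- the coefficient function is bounded and nonzero
  have hGG : ∀ (n : G), ∀ w ∈ l.support, GG c (bb n) (Finset.range d) w ≠ 0 →
      (w : Multiset ℤ) = (Finset.range d).val.map (bb n) := by
    intro n w hw hne
    obtain ⟨k, hk1, hk2⟩ := GG_val c (bb n) w (Finset.range d)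
      (by rw [Finset.card_range, (hl hw).1])
    apply hk2.mp
    rintro rfl
    apply hne
    rw [hk1, Nat.cast_zero, mul_zero]
  have hBdd : Bdd d H := by
    refine ⟨(∑ w ∈ l.support, (w.map (fun v => |v|)).sum) + 4, fun n hn i hi => ?_⟩
    obtain ⟨w, hw, hne⟩ := Finset.exists_ne_zero_of_sum_ne_zero hn
    have h3 := hGG n w hw (fun h => hne (by rw [h, mul_zero]))
    have h4 : bb n i ∈ (w : Multiset ℤ) := by
      rw [h3]
      exact Multiset.mem_map_of_mem _ (Finset.mem_range.mpr hi)
    have h5 : |bb n i| ≤ (w.map (fun v => |v|)).sum := by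
      apply List.single_le_sum
      · intro v hv
        obtain ⟨v', _, rfl⟩ := List.mem_map.mp hv
        exact abs_nonneg _
      · exact List.mem_map_of_mem (Multiset.mem_coe.mp h4)
    have h6 : (w.map (fun v => |v|)).sum ≤ ∑ w ∈ l.support, (w.map (fun v => |v|)).sum := by
      apply Finset.single_le_sum (f := fun w : List ℤ => (w.map (fun v => |v|)).sum) _ hw
      intro w' _
      apply List.sum_nonneg
      intro v hv
      obtain ⟨v', _, rfl⟩ := List.mem_map.mp hv
      exact abs_nonneg _
    have h7 : n (2 * i) + n (2 * i + 1) = -(bb n i) - 4 := by unfold bb; ring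
    rw [h7, abs_le]
    have h8 := abs_le.mp (h5.trans h6)
    constructor <;> omega
  have hne : H ≠ 0 := by
    obtain ⟨w0, hw0⟩ := Finsupp.support_nonempty_iff.mpr hl0
    set n0 : G := fun a => if a % 2 = 0 then -(w0.getD (a / 2) 0) - 4 else 0 with hn0
    have hb : ∀ i, bb n0 i = w0.getD i 0 := by
      intro i
      unfold bb
      rw [hn0]
      beta_reduce
      rw [if_pos (by omega), if_neg (by omega)]
      have : 2 * i / 2 = i := by omega
      rw [this]
      ring
    have hw0d : w0.length = d := (hl hw0).1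
    have hmap : (Finset.range d).val.map (bb n0) = (w0 : Multiset ℤ) := by
      rw [Finset.range_val, Multiset.range, Multiset.map_coe, Multiset.coe_eq_coe]
      have : List.map (bb n0) (List.range d) = w0 := by
        apply List.ext_getElem
        · simp [hw0d]
        · intro i h1 h2
          rw [List.getElem_map, List.getElem_range, hb, List.getD_eq_getElem _ _ h2]
      rw [this]
    intro h0
    have h1 := congrFun h0 n0
    rw [hH] at h1
    beta_reduce at h1
    rw [Finset.sum_eq_single w0] at h1
    · obtain ⟨k, hk1, hk2⟩ := GG_val c (bb n0) w0 (Finset.range d)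
        (by rw [Finset.card_range, hw0d])
      have hk : k ≠ 0 := hk2.mpr hmap.symm
      rw [hk1] at h1
      have h2 : l w0 ≠ 0 := Finsupp.mem_support_iff.mp hw0
      have h3 : (-2 * c) ^ w0.length * (k : ℂ) ≠ 0 :=
        mul_ne_zero (pow_ne_zero _ (mul_ne_zero (by norm_num) hc)) (Nat.cast_ne_zero.mpr hk)
      exact mul_ne_zero h2 h3 h1
    · intro w hw hww
      have : GG c (bb n0) (Finset.range d) w = 0 := by
        by_contra h2
        have h3 := hGG n0 w hw h2
        rw [hmap] at h3
        exact hww ((hl hw).2.inj (hl hw0).2 h3)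
      rw [this, mul_zero]
    · intro h2
      exact absurd hw0 h2
  have hQ := act_Q_ne hBdd hne
  obtain ⟨n, hn⟩ := Function.ne_iff.mp hQ
  have h2 : act A (PJ d (Finset.range d)) (fun n => adT e T n y) n ∈ I :=
    act_mem I _ _ (fun n => adT_mem e I hI T n hy) n
  rw [hval] at h2
  beta_reduce at h2
  rw [Algebra.algebraMap_eq_smul_one] at h2
  have h3 := I.smul_mem (act ℂ (Q d) H n)⁻¹ h2
  rw [smul_smul, inv_mul_cancel₀ hn, one_smul] at h3
  exact h3

end Pool.Agent.H176R3.Vir
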