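import Pool.Agent.H176R3.VirAd

/-!
Every nonzero two-sided ideal of an algebra generated by elements satisfying the Virasoro
relations with nonzero central charge contains `1`.
-/

set_option autoImplicit false
set_option linter.unusedSectionVars false

namespace Pool.Agent.H176R3.Vir

variable {A : Type*} [Ring A] [Algebra ℂ A] (e : ℤ → A)

/-- The product of generators along a word. -/
def wd (w : List ℤ) : A := (w.map e).prod

@[simp] lemma wd_nil : wd e [] = 1 := by simp [wd]

@[simp] lemma wd_cons (v : ℤ) (w : List ℤ) : wd e (v :: w) = e v * wd e w := by simp [wd]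

/-- The pairs of labels below `2 d` that are not partners. -/
def cross (d : ℕ) : Finset (ℕ × ℕ) :=
  (Finset.range (2 * d) ×ˢ Finset.range (2 * d)).filter (fun p => p.1 / 2 ≠ p.2 / 2)

/-- The cross factor. -/
noncomputable def Q (d : ℕ) : K := ∏ p ∈ cross d, D p.1 p.2 ^ (2 * d + 3)

/-- The cross factor times the partner factors of the pairs in `J`. -/
noncomputable def PJ (d : ℕ) (J : Finset ℕ) : K := Q d * ∏ i ∈ J, D (2 * i) (2 * i + 1) ^ 4

/-- The labels of the pairs in `J`. -/
def TJ (J : Finset ℕ) : Finset ℕ := J.biUnion (fun i => {2 * i, 2 * i + 1})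

lemma mem_TJ {J : Finset ℕ} {a : ℕ} : a ∈ TJ J ↔ a / 2 ∈ J := by
  unfold TJ
  simp only [Finset.mem_biUnion, Finset.mem_insert, Finset.mem_singleton]
  constructor
  · rintro ⟨i, hi, rfl | rfl⟩
    · have : 2 * i / 2 = i := by omega
      rwa [this]
    · have : (2 * i + 1) / 2 = i := by omega
      rwa [this]
  · intro h
    exact ⟨a / 2, h, by omega⟩

variable {e}

lemma act_sum (p : K) {ι : Type*} (s : Finset ι) (f : ι → G → A) :
    act A p (fun n => ∑ i ∈ s, f i n) = ∑ i ∈ s, act A p (f i) := by
  have : (fun n => ∑ i ∈ s, f i n) = ∑ i ∈ s, f i := by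
    funext n; rw [Finset.sum_apply]
  rw [this, map_sum]

/-- If a block contains two labels that are not partners, the term is killed by `Q`. -/
lemma kill_cross {c : ℂ} (he : IsVir c e) {d : ℕ} {T : Finset ℕ} (hT : T ⊆ Finset.range (2 * d))
    (v : ℤ) {a b : ℕ} (ha : a ∈ T) (hb : b ∈ T) (hab : a / 2 ≠ b / 2) {u w : G → A}
    (hua : Ind u a) (hub : Ind u b) (hwa : Ind w a) (hwb : Ind w b) :
    act A (Q d) (fun n => u n * adT e T n (e v) * w n) = 0 := by
  have hmem : (a, b) ∈ cross d := by
    unfold cross
    simp only [Finset.mem_filter, Finset.mem_product]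
    exact ⟨⟨hT ha, hT hb⟩, hab⟩
  unfold Q
  rw [← Finset.mul_prod_erase _ _ hmem, mul_comm, act_mul, act_Dpow_mul hua hub hwa hwb]
  have hcard : T.card + 3 ≤ 2 * d + 3 := by
    have := Finset.card_le_card hT
    rw [Finset.card_range] at this
    omega
  rw [kill he T v ha hb hcard]
  simp only [Pi.zero_apply, mul_zero, zero_mul]
  exact map_zero _

/-- Words that are too short for the labels are killed by `Q`. -/
lemma vanish {c : ℂ} (he : IsVir c e) {d : ℕ} (w : List ℤ) : ∀ (T : Finset ℕ),
    T ⊆ Finset.range (2 * d) → w.length < (T.image (· / 2)).card → ∀ u : G → A,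
    (∀ a ∈ T, Ind u a) → act A (Q d) (fun n => u n * adT e T n (wd e w)) = 0 := by
  induction w with
  | nil =>
    intro T hT hcard u hu
    have hne : T.Nonempty := by
      rw [← Finset.image_nonempty (f := (· / 2)), ← Finset.card_pos]
      exact lt_of_le_of_lt (Nat.zero_le _) hcard
    simp only [wd_nil, adT_one e hne, mul_zero]
    exact map_zero _
  | cons v w ih =>
    intro T hT hcard u hu
    simp only [wd_cons, adT_mul, Finset.mul_sum]
    rw [act_sum]
    refine Finset.sum_eq_zero fun S hS => ?_
    have hST : S ⊆ T := Finset.mem_powerset.mp hS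
    by_cases hc : ∃ a ∈ S, ∃ b ∈ S, a / 2 ≠ b / 2
    · obtain ⟨a, ha, b, hb, hab⟩ := hc
      have := kill_cross he (hST.trans hT) v ha hb hab (hu a (hST ha)) (hu b (hST hb))
        (adT_ind e (T \ S) (wd e w) (a := a) (fun h => (Finset.mem_sdiff.mp h).2 ha))
        (adT_ind e (T \ S) (wd e w) (a := b) (fun h => (Finset.mem_sdiff.mp h).2 hb))
      simpa only [mul_assoc] using this
    · push Not at hc
      have h1 : (S.image (· / 2)).card ≤ 1 := by
        rw [Finset.card_le_one]
        intro a ha b hb
        simp only [Finset.mem_image] at ha hb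
        obtain ⟨a', ha', rfl⟩ := ha
        obtain ⟨b', hb', rfl⟩ := hb
        exact hc a' ha' b' hb'
      have h2 : (T.image (· / 2)).card ≤ (S.image (· / 2)).card + ((T \ S).image (· / 2)).card := by
        refine le_trans (Finset.card_le_card ?_) (Finset.card_union_le _ _)
        rw [← Finset.image_union, Finset.union_sdiff_of_subset hST]
      have h3 : w.length < ((T \ S).image (· / 2)).card := by
        rw [List.length_cons] at hcard
        omega
      have := ih (T \ S) (Finset.sdiff_subset.trans hT) h3
        (fun n => u n * adT e S n (e v)) (fun a ha => by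
          intro n
          have h4 := hu a (Finset.mem_sdiff.mp ha).1 n
          have h5 := adT_ind e S (e v) (a := a) (Finset.mem_sdiff.mp ha).2 n
          beta_reduce at h5 ⊢
          rw [h4, h5])
      simpa only [mul_assoc] using this

/-- The combinatorial coefficient: `b i` is minus the sum of the partners minus four. -/
noncomputable def GG (c : ℂ) (b : ℕ → ℤ) : Finset ℕ → List ℤ → ℂ
  | _, [] => 1
  | J, v :: w => ∑ i ∈ J, (if v = b i then -2 * c else 0) * GG c b (J.erase i) w

lemma GG_congr (c : ℂ) {b b' : ℕ → ℤ} (w : List ℤ) : ∀ (J : Finset ℕ), (∀ i ∈ J, b i = b' i) →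
    GG c b J w = GG c b' J w := by
  induction w with
  | nil => intro J _; simp [GG]
  | cons v w ih =>
    intro J hJ
    rw [GG, GG]
    refine Finset.sum_congr rfl fun i hi => ?_
    rw [hJ i hi, ih (J.erase i) (fun j hj => hJ j (Finset.mem_of_mem_erase hj))]

/-- The value of the coefficient. -/
lemma GG_val (c : ℂ) (b : ℕ → ℤ) (w : List ℤ) : ∀ (J : Finset ℕ), w.length = J.card →
    ∃ k : ℕ, GG c b J w = (-2 * c) ^ w.length * k ∧ (k ≠ 0 ↔ (w : Multiset ℤ) = J.val.map b) := by
  induction w with
  | nil =>
    intro J hJ
    refine ⟨1, by simp [GG], ?_⟩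
    have : J = ∅ := Finset.card_eq_zero.mp hJ.symm
    subst this
    simp
  | cons v w ih =>
    intro J hJ
    have h1 : ∀ i ∈ J, w.length = (J.erase i).card := by
      intro i hi
      rw [Finset.card_erase_of_mem hi, ← hJ, List.length_cons]; rfl
    choose! k hk using fun i (hi : i ∈ J) => ih (J.erase i) (h1 i hi)
    refine ⟨∑ i ∈ J, if v = b i then k i else 0, ?_, ?_⟩
    · rw [GG, List.length_cons, pow_succ]
      push_cast
      rw [Finset.mul_sum]
      refine Finset.sum_congr rfl fun i hi => ?_
      rw [(hk i hi).1]
      split_ifs <;> ring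
    · have h2 : ∀ i ∈ J, J.val.map b = b i ::ₘ (J.erase i).val.map b := by
        intro i hi
        rw [Finset.erase_val, ← Multiset.map_cons, Multiset.cons_erase hi]
      have h4 : (∑ i ∈ J, if v = b i then k i else 0) ≠ 0 ↔
          ∃ i ∈ J, (if v = b i then k i else 0) ≠ 0 := by
        rw [Ne, Finset.sum_eq_zero_iff]
        push Not
        rfl
      rw [h4]
      constructor
      · rintro ⟨i, hi, hne⟩
        have hv : v = b i := by
          by_contra hv
          exact hne (if_neg hv)
        rw [if_pos hv] at hne
        have h3 := (hk i hi).2.mp hne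
        rw [h2 i hi, ← h3, hv]
        rfl
      · intro h
        have h3 : v ∈ J.val.map b := by
          rw [← h]
          exact List.mem_cons_self
        rw [Multiset.mem_map] at h3
        obtain ⟨i, hi, hv⟩ := h3
        refine ⟨i, hi, ?_⟩
        rw [if_pos hv.symm]
        apply (hk i hi).2.mpr
        rw [h2 i hi, hv, ← Multiset.cons_coe] at h
        exact (Multiset.cons_inj_right v).mp h

lemma ind_mul {u w : G → A} {a : ℕ} (hu : Ind u a) (hw : Ind w a) :
    Ind (fun n => u n * w n) a := by
  intro n
  beta_reduce
  rw [hu n, hw n]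

/-- The coefficient `b` attached to `n`. -/
def bb (n : G) : ℕ → ℤ := fun i => -(n (2 * i) + n (2 * i + 1)) - 4

lemma evaluate {c : ℂ} (he : IsVir c e) {d : ℕ} (w : List ℤ) : ∀ (J : Finset ℕ),
    J ⊆ Finset.range d → w.length = J.card → ∀ u : G → A,
    (∀ a ∈ TJ J, Ind u a) → act A (PJ d J) (fun n => u n * adT e (TJ J) n (wd e w)) =
      act A (Q d) (fun n => u n * algebraMap ℂ A (GG c (bb n) J w)) := by
  induction w with
  | nil =>
    intro J hJ hw u hu
    have : J = ∅ := Finset.card_eq_zero.mp hw.symm
    subst this
    simp [PJ, TJ, GG]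
  | cons v w ih =>
    intro J hJ hw u hu
    have hTJ : TJ J ⊆ Finset.range (2 * d) := by
      intro a ha
      have h1 := Finset.mem_range.mp (hJ (mem_TJ.mp ha))
      rw [Finset.mem_range]
      omega
    have hPJ : ∀ f : G → A, act A (Q d) f = 0 → act A (PJ d J) f = 0 := by
      intro f hf
      unfold PJ
      rw [mul_comm, act_mul, hf, map_zero]
    simp only [wd_cons, adT_mul, Finset.mul_sum]
    rw [act_sum]
    -- all terms vanish except those for full pairs
    have hzero : ∀ S ∈ (TJ J).powerset, (¬ ∃ i ∈ J, S = {2 * i, 2 * i + 1}) →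
        act A (PJ d J) (fun n => u n * (adT e S n (e v) * adT e (TJ J \ S) n (wd e w))) = 0 := by
      intro S hS hne
      have hST : S ⊆ TJ J := Finset.mem_powerset.mp hS
      apply hPJ
      by_cases hc : ∃ a ∈ S, ∃ b ∈ S, a / 2 ≠ b / 2
      · obtain ⟨a, ha, b, hb, hab⟩ := hc
        have := kill_cross he (hST.trans hTJ) v ha hb hab (hu a (hST ha)) (hu b (hST hb))
          (adT_ind e (TJ J \ S) (wd e w) (a := a) (fun h => (Finset.mem_sdiff.mp h).2 ha))
          (adT_ind e (TJ J \ S) (wd e w) (a := b) (fun h => (Finset.mem_sdiff.mp h).2 hb))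
        simpa only [mul_assoc] using this
      · push Not at hc
        have h3 : w.length < ((TJ J \ S).image (· / 2)).card := by
          have h4 : J ⊆ (TJ J \ S).image (· / 2) := by
            intro i hi
            rw [Finset.mem_image]
            by_cases h5 : 2 * i ∈ S
            · by_cases h6 : 2 * i + 1 ∈ S
              · exfalso
                apply hne
                refine ⟨i, hi, ?_⟩
                ext a
                simp only [Finset.mem_insert, Finset.mem_singleton]
                constructor
                · intro ha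
                  have := hc a ha (2 * i) h5
                  omega
                · rintro (rfl | rfl)
                  · exact h5
                  · exact h6
              · refine ⟨2 * i + 1, ?_, by omega⟩
                rw [Finset.mem_sdiff, mem_TJ]
                have : (2 * i + 1) / 2 = i := by omega
                rw [this]
                exact ⟨hi, h6⟩
            · refine ⟨2 * i, ?_, by omega⟩
              rw [Finset.mem_sdiff, mem_TJ]
              have : (2 * i) / 2 = i := by omega
              rw [this]
              exact ⟨hi, h5⟩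
          have h5 := Finset.card_le_card h4
          rw [List.length_cons] at hw
          omega
        have := vanish he w (TJ J \ S) (Finset.sdiff_subset.trans hTJ) h3
          (fun n => u n * adT e S n (e v)) (fun a ha => ind_mul (hu a (Finset.mem_sdiff.mp ha).1)
            (adT_ind e S (e v) (a := a) (Finset.mem_sdiff.mp ha).2))
        simpa only [mul_assoc] using this
    have hinj : Set.InjOn (fun i : ℕ => ({2 * i, 2 * i + 1} : Finset ℕ)) J := by
      intro i _ j _ hij
      have h1 : 2 * i ∈ ({2 * j, 2 * j + 1} : Finset ℕ) := by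
        rw [← show ({2 * i, 2 * i + 1} : Finset ℕ) = {2 * j, 2 * j + 1} from hij]
        simp
      simp only [Finset.mem_insert, Finset.mem_singleton] at h1
      omega
    have hsub : J.image (fun i : ℕ => ({2 * i, 2 * i + 1} : Finset ℕ)) ⊆ (TJ J).powerset := by
      intro S hS
      rw [Finset.mem_image] at hS
      obtain ⟨i, hi, rfl⟩ := hS
      rw [Finset.mem_powerset]
      intro a ha
      rw [mem_TJ]
      simp only [Finset.mem_insert, Finset.mem_singleton] at ha
      have : a / 2 = i := by omega
      rwa [this]
    rw [← Finset.sum_subset hsub (fun S hS hne => hzero S hS (by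
      rintro ⟨i, hi, rfl⟩
      exact hne (Finset.mem_image_of_mem _ hi))), Finset.sum_image hinj]
    have hterm : ∀ i ∈ J, act A (PJ d J) (fun n => u n * (adT e {2 * i, 2 * i + 1} n (e v) *
        adT e (TJ J \ {2 * i, 2 * i + 1}) n (wd e w))) =
        act A (Q d) (fun n => u n * algebraMap ℂ A ((if v = bb n i then -2 * c else 0) *
          GG c (bb n) (J.erase i) w)) := by
      intro i hi
      have h1 : PJ d J = PJ d (J.erase i) * D (2 * i) (2 * i + 1) ^ 4 := by
        unfold PJ
        rw [← Finset.prod_erase_mul _ _ hi, mul_assoc]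
      have h2 : TJ J \ {2 * i, 2 * i + 1} = TJ (J.erase i) := by
        ext a
        rw [Finset.mem_sdiff, mem_TJ, mem_TJ, Finset.mem_erase]
        simp only [Finset.mem_insert, Finset.mem_singleton]
        constructor
        · rintro ⟨h3, h4⟩
          exact ⟨by omega, h3⟩
        · rintro ⟨h3, h4⟩
          exact ⟨h4, by omega⟩
      have hmem1 : 2 * i ∈ TJ J := by
        rw [mem_TJ]
        have : 2 * i / 2 = i := by omega
        rwa [this]
      have hmem2 : 2 * i + 1 ∈ TJ J := by
        rw [mem_TJ]
        have : (2 * i + 1) / 2 = i := by omega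
        rwa [this]
      have hn1 : 2 * i ∉ TJ (J.erase i) := by
        rw [mem_TJ]
        have : 2 * i / 2 = i := by omega
        rw [this]
        exact Finset.notMem_erase i J
      have hn2 : 2 * i + 1 ∉ TJ (J.erase i) := by
        rw [mem_TJ]
        have : (2 * i + 1) / 2 = i := by omega
        rw [this]
        exact Finset.notMem_erase i J
      have h3 := act_Dpow_mul (hu _ hmem1) (hu _ hmem2)
        (adT_ind e (TJ (J.erase i)) (wd e w) hn1) (adT_ind e (TJ (J.erase i)) (wd e w) hn2) 4
        (fun n => adT e {2 * i, 2 * i + 1} n (e v))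
      simp only [pair he (show 2 * i < 2 * i + 1 by omega)] at h3
      have h4 : (fun n => u n * (adT e {2 * i, 2 * i + 1} n (e v) *
        adT e (TJ J \ {2 * i, 2 * i + 1}) n (wd e w))) = fun n => u n *
          adT e {2 * i, 2 * i + 1} n (e v) * adT e (TJ (J.erase i)) n (wd e w) := by
        funext n
        rw [h2, mul_assoc]
      have h5 : ∀ n : G, (if v + (n (2 * i) + n (2 * i + 1)) + 4 = 0 then -2 * c else 0 : ℂ) =
          if v = bb n i then -2 * c else 0 := by
        intro n
        have : v + (n (2 * i) + n (2 * i + 1)) + 4 = 0 ↔ v = bb n i := by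
          unfold bb
          constructor <;> intro h <;> omega
        simp only [this]
      rw [h1, act_mul, h4, h3]
      simp only [h5]
      have h6 := ih (J.erase i) ((Finset.erase_subset i J).trans hJ)
        (by rw [Finset.card_erase_of_mem hi, ← hw, List.length_cons]; rfl)
        (fun n => u n * ((if v = bb n i then -2 * c else 0 : ℂ) • 1)) (by
          intro a ha
          apply ind_mul (hu a (mem_TJ.mpr (Finset.mem_of_mem_erase (mem_TJ.mp ha))))
          intro n
          have hai : a / 2 ≠ i := Finset.ne_of_mem_erase (mem_TJ.mp ha)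
          have : bb (n + dl a) i = bb n i := by
            unfold bb
            rw [Pi.add_apply, Pi.add_apply, dl_ne (by omega), dl_ne (by omega), add_zero, add_zero]
          beta_reduce
          rw [this])
      rw [h6]
      congr 1
      funext n
      rw [map_mul, ← mul_assoc, Algebra.algebraMap_eq_smul_one (if v = bb n i then -2 * c else 0)]
    rw [Finset.sum_congr rfl hterm, ← act_sum]
    congr 1
    funext n
    rw [GG, map_sum, Finset.mul_sum]

end Pool.Agent.H176R3.Vir
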