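import Mathlib

/-!
Shift operators on functions of infinitely many integer variables.
-/

set_option autoImplicit false

namespace Pool.Agent.H176R3.Vir

/-- The group of integer vectors indexed by the labels. -/
abbrev G := ℕ → ℤ

/-- The group algebra of `G`. -/
abbrev K := AddMonoidAlgebra ℂ G

section
variable (A : Type*) [Ring A] [Algebra ℂ A]

/-- The shift representation. -/
def shift : Multiplicative G →* Module.End ℂ (G → A) where
  toFun k :=
    { toFun := fun f n => f (n + k.toAdd)
      map_add' := fun _ _ => rfl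
      map_smul' := fun _ _ => rfl }
  map_one' := by
    ext f n
    simp
  map_mul' := by
    intro k l
    ext f n
    simp only [toAdd_mul, LinearMap.coe_mk, AddHom.coe_mk, Module.End.mul_apply]
    rw [add_assoc]

/-- The group algebra acts on functions by shifts. -/
noncomputable def act : K →ₐ[ℂ] Module.End ℂ (G → A) :=
  AddMonoidAlgebra.lift ℂ (Module.End ℂ (G → A)) G (shift A)

end

/-- The unit vector. -/
def dl (a : ℕ) : G := Pi.single a 1

/-- The generator of the group algebra at the label `a`. -/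
noncomputable def X (a : ℕ) : K := AddMonoidAlgebra.single (dl a) 1

variable {A : Type*} [Ring A] [Algebra ℂ A]

lemma act_X (a : ℕ) (f : G → A) (n : G) : act A (X a) f n = f (n + dl a) := by
  unfold act X
  rw [AddMonoidAlgebra.lift_single]
  simp [shift]

/-- The difference `X a - X b`. -/
noncomputable def D (a b : ℕ) : K := X a - X b

lemma act_D (a b : ℕ) (f : G → A) (n : G) :
    act A (D a b) f n = f (n + dl a) - f (n + dl b) := by
  unfold D
  rw [map_sub, LinearMap.sub_apply, Pi.sub_apply, act_X, act_X]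

lemma act_mul (p q : K) (f : G → A) : act A (p * q) f = act A p (act A q f) := by
  rw [map_mul]; rfl

lemma act_one (f : G → A) : act A 1 f = f := by
  rw [map_one]; rfl

lemma act_pow_succ (p : K) (k : ℕ) (f : G → A) :
    act A (p ^ (k + 1)) f = act A (p ^ k) (act A p f) := by
  rw [pow_succ, act_mul]

lemma act_pow_succ' (p : K) (k : ℕ) (f : G → A) :
    act A (p ^ (k + 1)) f = act A p (act A (p ^ k) f) := by
  rw [pow_succ', act_mul]

lemma act_comm (p q : K) (f : G → A) : act A p (act A q f) = act A q (act A p f) := by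
  rw [← act_mul, mul_comm, act_mul]

/-- Membership of all values in a two-sided ideal is preserved. -/
lemma act_mem (I : Submodule ℂ A) (p : K) (f : G → A) (hf : ∀ n, f n ∈ I) (n : G) :
    act A p f n ∈ I := by
  induction p using AddMonoidAlgebra.induction_linear generalizing n with
  | zero => rw [map_zero]; exact I.zero_mem
  | add p q hp hq =>
    rw [map_add, LinearMap.add_apply, Pi.add_apply]
    exact I.add_mem (hp n) (hq n)
  | single k r =>
    unfold act
    rw [AddMonoidAlgebra.lift_single]
    simp only [LinearMap.smul_apply, Pi.smul_apply]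
    exact I.smul_mem r (hf _)

/-- A function independent of the coordinate `a`. -/
def Ind (u : G → A) (a : ℕ) : Prop := ∀ n, u (n + dl a) = u n

lemma act_D_mul {a b : ℕ} {u w : G → A} (hua : Ind u a) (hub : Ind u b) (hwa : Ind w a)
    (hwb : Ind w b) (f : G → A) :
    act A (D a b) (fun n => u n * f n * w n) = fun n => u n * act A (D a b) f n * w n := by
  funext n
  rw [act_D, act_D, hua n, hub n, hwa n, hwb n, mul_sub, sub_mul]

lemma act_Dpow_mul {a b : ℕ} {u w : G → A} (hua : Ind u a) (hub : Ind u b) (hwa : Ind w a)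
    (hwb : Ind w b) (k : ℕ) (f : G → A) :
    act A (D a b ^ k) (fun n => u n * f n * w n) =
      fun n => u n * act A (D a b ^ k) f n * w n := by
  induction k generalizing f with
  | zero => simp only [pow_zero, act_one]
  | succ k ih =>
    rw [act_pow_succ, act_D_mul hua hub hwa hwb, ih]
    simp only [act_pow_succ]

/-- Affine functions. -/
def Aff (l : G → ℂ) : Prop := ∀ a, ∃ α : ℂ, ∀ n, l (n + dl a) = l n + α

/-- Products of `k` affine functions and a constant. -/
inductive PolyF : ℕ → (G → ℂ) → Prop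
  | const (r : ℂ) : PolyF 0 (fun _ => r)
  | mul {k : ℕ} {p l : G → ℂ} : Aff l → PolyF k p → PolyF (k + 1) (fun n => l n * p n)

lemma act_smul_aff {a b : ℕ} {l : G → ℂ} (hl : Aff l) (k : ℕ) (f : G → A)
    (hf : act A (D a b ^ k) f = 0) : act A (D a b ^ (k + 1)) (fun n => l n • f n) = 0 := by
  obtain ⟨α, hα⟩ := hl a
  obtain ⟨β, hβ⟩ := hl b
  induction k generalizing f with
  | zero =>
    rw [pow_zero, act_one] at hf
    subst hf
    simp only [Pi.zero_apply, smul_zero]
    exact map_zero _
  | succ k ih =>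
    have h1 : act A (D a b) (fun n => l n • f n) =
        (fun n => l n • act A (D a b) f n) + (α • act A (X a) f - β • act A (X b) f) := by
      funext n
      simp only [act_D, act_X, Pi.add_apply, Pi.sub_apply, Pi.smul_apply, hα, hβ]
      module
    rw [act_pow_succ, h1, map_add, map_sub, map_smul, map_smul, act_comm _ (X a), act_comm _ (X b),
      hf, map_zero, map_zero, smul_zero, smul_zero, sub_zero, add_zero]
    apply ih
    rw [← act_pow_succ]
    exact hf

lemma act_smul_poly {a b : ℕ} {k : ℕ} {p : G → ℂ} (hp : PolyF k p) (f : G → A)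
    (hf : act A (D a b) f = 0) : act A (D a b ^ (k + 1)) (fun n => p n • f n) = 0 := by
  induction hp with
  | const r =>
    rw [zero_add, pow_one]
    have : (fun n => r • f n) = r • f := rfl
    rw [this, map_smul, hf, smul_zero]
  | mul hl hq ih =>
    have := act_smul_aff hl _ _ ih
    simp only [smul_smul] at this
    exact this

lemma act_pow_mono {a b k m : ℕ} (h : k ≤ m) {f : G → A} (hf : act A (D a b ^ k) f = 0) :
    act A (D a b ^ m) f = 0 := by
  obtain ⟨j, rfl⟩ := Nat.exists_eq_add_of_le h
  rw [pow_add, mul_comm, act_mul, hf, map_zero]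

/-- The fourth power of the difference. -/
lemma act_D4 (a b : ℕ) (f : G → A) (n : G) :
    act A (D a b ^ 4) f n =
      f (n + dl a + dl a + dl a + dl a) - (4 : ℂ) • f (n + dl b + dl a + dl a + dl a) +
      (6 : ℂ) • f (n + dl b + dl b + dl a + dl a) -
      (4 : ℂ) • f (n + dl b + dl b + dl b + dl a) + f (n + dl b + dl b + dl b + dl b) := by
  have e1 : ∀ m : G, m + dl a + dl b = m + dl b + dl a := fun m => add_right_comm _ _ _
  simp only [act_pow_succ', pow_zero, act_one, act_D, e1]
  module

/-- All functions `H` whose support is bounded in the sums of partners. -/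
def Bdd (d : ℕ) (H : G → ℂ) : Prop :=
  ∃ B : ℤ, ∀ n, H n ≠ 0 → ∀ i < d, |n (2 * i) + n (2 * i + 1)| ≤ B

lemma dl_apply (a j : ℕ) : dl a j = if j = a then 1 else 0 := by
  unfold dl
  rw [Pi.single_apply]

lemma sum_dl_le (a i : ℕ) : |dl a (2 * i) + dl a (2 * i + 1)| ≤ 1 := by
  rw [dl_apply, dl_apply]
  split_ifs with h1 h2 h2
  · omega
  · norm_num
  · norm_num
  · norm_num

lemma Bdd.act_D {d : ℕ} {H : G → ℂ} (hH : Bdd d H) (a b : ℕ) : Bdd d (act ℂ (D a b) H) := by
  obtain ⟨B, hB⟩ := hH
  refine ⟨B + 1, fun n hn i hi => ?_⟩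
  rw [Vir.act_D] at hn
  have key : ∀ e : ℕ, H (n + dl e) ≠ 0 → |n (2 * i) + n (2 * i + 1)| ≤ B + 1 := by
    intro e he
    have h1 := hB _ he i hi
    have h2 := sum_dl_le e i
    simp only [Pi.add_apply] at h1
    rw [abs_le] at *
    constructor <;> linarith [h1.1, h1.2, h2.1, h2.2]
  by_cases h : H (n + dl a) = 0
  · apply key b
    intro h'
    exact hn (by rw [h, h', sub_zero])
  · exact key a h

lemma Bdd.ne_zero {d : ℕ} {H : G → ℂ} (hH : Bdd d H) {a b : ℕ} (ha : a / 2 < d)
    (hab : a / 2 ≠ b / 2) (h0 : act ℂ (D a b) H = 0) : H = 0 := by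
  obtain ⟨B, hB⟩ := hH
  have h1 : ∀ n, H (n + dl a) = H (n + dl b) := by
    intro n
    have := congrFun h0 n
    rw [Vir.act_D] at this
    exact sub_eq_zero.mp this
  have h2 : ∀ (k : ℕ) (n : G), H (n + k • (dl a - dl b)) = H n := by
    intro k
    induction k with
    | zero => intro n; simp
    | succ k ih =>
      intro n
      rw [← ih n]
      have := h1 (n + k • (dl a - dl b) - dl b)
      rw [sub_add_cancel] at this
      rw [← this]
      congr 1
      rw [succ_nsmul]
      abel
  funext n
  by_contra hne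
  have h3 : ∀ k : ℕ, |(n + k • (dl a - dl b)) (2 * (a / 2)) +
      (n + k • (dl a - dl b)) (2 * (a / 2) + 1)| ≤ B := by
    intro k
    apply hB _ _ _ ha
    rw [h2]
    exact hne
  have h4 : dl a (2 * (a / 2)) + dl a (2 * (a / 2) + 1) = 1 := by
    rw [dl_apply, dl_apply]
    rcases Nat.even_or_odd' a with ⟨c, rfl | rfl⟩
    · rw [if_pos (by omega), if_neg (by omega)]; rfl
    · rw [if_neg (by omega), if_pos (by omega)]; rfl
  have h5 : dl b (2 * (a / 2)) = 0 := by
    rw [dl_apply, if_neg]; omega
  have h6 : dl b (2 * (a / 2) + 1) = 0 := by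
    rw [dl_apply, if_neg]; omega
  have h7 : ∀ k : ℕ, |n (2 * (a / 2)) + n (2 * (a / 2) + 1) + (k : ℤ)| ≤ B := by
    intro k
    have h8 := h3 k
    have h9 : (n + k • (dl a - dl b)) (2 * (a / 2)) + (n + k • (dl a - dl b)) (2 * (a / 2) + 1) =
        n (2 * (a / 2)) + n (2 * (a / 2) + 1) +
          (k : ℤ) * (dl a (2 * (a / 2)) + dl a (2 * (a / 2) + 1)) := by
      rw [Pi.add_apply, Pi.add_apply, Pi.smul_apply, Pi.smul_apply, Pi.sub_apply, Pi.sub_apply,
        h5, h6, nsmul_eq_mul, nsmul_eq_mul]
      ring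
    rw [h9, h4, mul_one] at h8
    exact h8
  have h8 := h7 (B.toNat + (|n (2 * (a / 2)) + n (2 * (a / 2) + 1)|).toNat + 1)
  have h9 := Int.self_le_toNat B
  have h10 := neg_abs_le (n (2 * (a / 2)) + n (2 * (a / 2) + 1))
  have h11 := Int.self_le_toNat (|n (2 * (a / 2)) + n (2 * (a / 2) + 1)|)
  have h12 := (abs_le.mp h8).2
  push_cast at h12
  omega

end Pool.Agent.H176R3.Vir
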